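import Pool.Agent.Work.MP_c0cec8_co.Bounded

/-!
# MP_c0cec8_co: the constant 3/8 can be improved for graphs of bounded degree

For every finite simple graph `G` of maximum degree at most `Δ` (`Δ ≥ 1`),
`cr₂ G ≤ (3/8 - 1/(25000 Δ³)) cr G`.  In particular no graph of positive crossing number attains
the ratio `3/8`.

Proof: the random 2-colouring behind the bound `3/8` is changed at a sparse random set of
vertices, each of which takes the colour that is better for the crossings at this vertex.  The
expected gain at a vertex is the first absolute moment of a cubic polynomial of random signs, which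
is bounded below with the inequality of Bonami at vertices with few crossings, and by a single
linear coefficient at vertices with many crossings.
-/

namespace Pool.Agent.Results.MP_c0cec8_co.BoundedDegree

open Pool.Agent.Work.MP_c0cec8_co

theorem result {V : Type*} [Finite V] (G : SimpleGraph V) (Δ : ℕ) (hΔ : 1 ≤ Δ)
    (hdeg : ∀ v : V, (G.neighborSet v).ncard ≤ Δ) :
    (cr₂ G : ℝ) ≤ (3 / 8 - 1 / (25000 * (Δ : ℝ) ^ 3)) * (cr G : ℝ) :=
  bounded_degree G Δ hΔ hdeg

end Pool.Agent.Results.MP_c0cec8_co.BoundedDegree
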