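import Pool.Agent.Work.MP_c0cec8_co.Bounded
import Pool.Agent.Work.MP_c0cec8_co.Circ

/-!
# MP_c0cec8_co: biplanar crossing number and circular chromatic number

If `G` has a circular `(p, q)`-colouring (`p ≥ 2 q > 0`), that is a map `c` from the vertices to
`ℤ/p` with `q ≤ |c u - c v| ≤ p - q` for adjacent `u`, `v`, then
`cr₂ G ≤ (1 - 3 q / (2 p)) cr G`.  So `cr₂ G ≤ (1 - 3 / (2 χ_c(G))) cr G`, where `χ_c` is the
circular chromatic number: `1/4` for bipartite graphs, and less than `3/8` if `χ_c(G) < 12/5`.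
-/

namespace Pool.Agent.Results.MP_c0cec8_co.CircularColoring

open Pool.Agent.Work.MP_c0cec8_co Finset

theorem result {V : Type*} [Finite V] (G : SimpleGraph V) (p q : ℕ) (hq : 0 < q)
    (hpq : 2 * q ≤ p) (c : V → ZMod p)
    (hc : ∀ u v : V, G.Adj u v → q ≤ (c u - c v).val ∧ (c u - c v).val ≤ p - q) :
    (cr₂ G : ℝ) ≤ (1 - 3 * (q : ℝ) / (2 * p)) * (cr G : ℝ) := by
  classical
  have := Fintype.ofFinite V
  have hp0 : (0 : ℝ) < p := by exact_mod_cast (by omega : 0 < p)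
  by_cases hp3 : 3 * q < p
  · -- large circular chromatic number: the general bound is better
    have h1 := bounded_degree G (Nat.card V + 1) (by omega) (fun v => by
      have : (G.neighborSet v).ncard ≤ (Set.univ : Set V).ncard :=
        Set.ncard_le_ncard (Set.subset_univ _)
      rw [Set.ncard_univ] at this
      omega)
    refine h1.trans (mul_le_mul_of_nonneg_right ?_ (by positivity))
    have h2 : 3 * (q : ℝ) / (2 * p) ≤ 1 / 2 := by
      rw [div_le_div_iff₀ (by positivity) (by norm_num)]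
      have : (3 * q : ℝ) < p := by exact_mod_cast hp3
      linarith
    have h3 : 0 ≤ 1 / (25000 * ((Nat.card V + 1 : ℕ) : ℝ) ^ 3) := by positivity
    linarith
  push Not at hp3
  have : NeZero p := ⟨by omega⟩
  obtain ⟨s, hs⟩ : ∃ s, p = 2 * q + s := ⟨p - 2 * q, by omega⟩
  have hsq : s ≤ q := by omega
  obtain ⟨D, hD⟩ := exists_cr G
  set Q := quad D.crossGraph with hQdef
  have hQ : Sym4 Q := D.sym4
  have hQG : ∀ a b c' d : V, (a, b, c', d) ∈ Q → G.Adj a b := by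
    intro a b c' d h
    obtain ⟨-, -, h3⟩ := mem_quad.mp h
    exact h3.1
  obtain ⟨t, y, hty⟩ := exists_rotation hQ hs hsq c
    (fun a b c' d h => hc a b (hQG a b c' d h))
  set ζ : V → Fin 3 := fun v => zone s q (c v + t).val with hζ
  have hok : ∀ u v, G.Adj u v → ok (ζ u) (ζ v) = true := by
    intro u v huv
    have hval : ∀ v : V, (c v + t).val < 2 * q + s := fun v => by
      have := ZMod.val_lt (c v + t); omega
    exact zone_ok hsq (hval u) (hval v) (pos_diff hs (hc u v huv).1 (hc u v huv).2)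
  let G₁ : SimpleGraph V :=
    { Adj := fun u v => G.Adj u v ∧ pl (ζ u) (ζ v) (y u) (y v) = false
      symm := ⟨fun u v h => ⟨h.1.symm, by rw [pl_comm]; exact h.2⟩⟩
      loopless := ⟨fun u h => G.loopless.irrefl u h.1⟩ }
  let G₂ : SimpleGraph V :=
    { Adj := fun u v => G.Adj u v ∧ pl (ζ u) (ζ v) (y u) (y v) = true
      symm := ⟨fun u v h => ⟨h.1.symm, by rw [pl_comm]; exact h.2⟩⟩
      loopless := ⟨fun u h => G.loopless.irrefl u h.1⟩ }
  have hsup : G₁ ⊔ G₂ = G := by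
    ext u v
    simp only [SimpleGraph.sup_adj, G₁, G₂]
    cases pl (ζ u) (ζ v) (y u) (y v) <;> simp
  have hdis : Disjoint G₁ G₂ := by
    rw [SimpleGraph.disjoint_left]
    intro u v h h'
    have h1 := h.2
    have h2 := h'.2
    rw [h1] at h2
    exact absurd h2 (by decide)
  have h1 := cr₂_le hsup hdis
  have h2 := cr_le_sum D (H := G₁) (by rw [← hsup]; exact le_sup_left)
    (fun v => rr (ζ v) (y v)) (fun u v h => label0 _ _ _ _ (hok u v h.1) h.2)
    (fun w => if pl (ζ w.1) (ζ w.2.1) (y w.1) (y w.2.1) = false ∧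
      pl (ζ w.2.2.1) (ζ w.2.2.2) (y w.2.2.1) (y w.2.2.2) = false ∧
      rr (ζ w.1) (y w.1) = rr (ζ w.2.2.1) (y w.2.2.1) then 1 else 0)
    (fun w => by split_ifs <;> norm_num)
    (fun w _ ha hb hc => by rw [if_pos ⟨ha.2, hb.2, hc⟩])
  have h3 := cr_le_sum D (H := G₂) (by rw [← hsup]; exact le_sup_right)
    (fun v => c1 (ζ v) (y v)) (fun u v h => label1 _ _ _ _ (hok u v h.1) h.2)
    (fun w => if pl (ζ w.1) (ζ w.2.1) (y w.1) (y w.2.1) = true ∧
      pl (ζ w.2.2.1) (ζ w.2.2.2) (y w.2.2.1) (y w.2.2.2) = true ∧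
      c1 (ζ w.1) (y w.1) = c1 (ζ w.2.2.1) (y w.2.2.1) then 1 else 0)
    (fun w => by split_ifs <;> norm_num)
    (fun w _ ha hb hc => by rw [if_pos ⟨ha.2, hb.2, hc⟩])
  have h4 : (8 * (cr G₁ + cr G₂) : ℝ) ≤ ∑ w ∈ Q, ((ff (ζ w.1) (ζ w.2.1) (ζ w.2.2.1) (ζ w.2.2.2)
      (y w.1) (y w.2.1) (y w.2.2.1) (y w.2.2.2) : ℕ) : ℝ) := by
    refine le_trans (le_of_eq (by ring)) ((add_le_add h2 h3).trans ?_)
    rw [← sum_add_distrib]
    refine sum_le_sum fun w _ => ?_
    unfold ff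
    cases pl (ζ w.1) (ζ w.2.1) (y w.1) (y w.2.1) <;>
      cases pl (ζ w.2.2.1) (ζ w.2.2.2) (y w.2.2.1) (y w.2.2.2) <;> simp
  have h6 : ((Q.card : ℕ) : ℝ) = 8 * (cr G : ℝ) := by
    have := card_quad D.crossGraph D.not_isDiag
    rw [hQdef, this, ← hD]
    push_cast
    rfl
  have h7 : (8 * (cr₂ G : ℝ)) ≤ 8 * (cr G₁ + cr G₂) := by
    have : (cr₂ G : ℝ) ≤ cr G₁ + cr G₂ := by exact_mod_cast h1
    linarith
  rw [h6] at hty
  have h8 : 8 * (cr₂ G : ℝ) ≤ 8 * ((1 - 3 * (q : ℝ) / (2 * p)) * (cr G : ℝ)) := by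
    refine (h7.trans h4).trans (hty.trans (le_of_eq (by ring)))
  linarith

end Pool.Agent.Results.MP_c0cec8_co.CircularColoring
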