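import Pool.Agent.Work.MP_c0cec8_co.Spine.Dense

/-!
# MP_c0cec8_co: the constant 3/8 can be improved if the crossing number is quadratic in the number
of edges

For every finite simple graph `G` with `m` edges, `cr₂ G ≤ (3/8) cr G - (cr G)² / (10⁶ m²)`. So the
bound `3/8` is improved by a positive constant on every class of graphs with `cr G ≥ δ m²`, in
particular on dense graphs.

Crossing numbers are defined with drawings along a line (see `Spine.Defs`): the vertices are points
of the horizontal axis and the edges are chains of semicircles centred on the axis, alternately
above and below it.

Proof: take a drawing with the least number of crossings in which every semicircle is crossed at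
most once. In the random partition behind the bound `3/8` the edges between vertices of different
colours form the second graph, and the two other classes are drawn apart in the first plane. Now
the two parts of the first plane are joined through one hole at a place of a rich edge `e`, and the
edges crossing `e` near the hole are led along `e` through the hole if their ends have different
colours; they are then always in the first plane, which saves a third of their crossings.
-/

namespace Pool.Agent.Results.MP_c0cec8_co.DenseGain

open Pool.Agent.Work.MP_c0cec8_co.Spine

theorem result {V : Type*} [Finite V] (G : SimpleGraph V) :
    (cr₂ G : ℝ) ≤ 3 / 8 * (cr G : ℝ) - (cr G : ℝ) ^ 2 / (10 ^ 6 * (G.edgeSet.ncard : ℝ) ^ 2) :=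
  dense_gain G

end Pool.Agent.Results.MP_c0cec8_co.DenseGain
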