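import Pool.Agent.Work.MP_c0cec8_co.Spine.VSpine

/-!
# MP_c0cec8_co: the constant 3/8 can be improved if every edge has an end of bounded degree

* `(A)` If every edge of the finite simple graph `G` has an end of degree at most `d`, then
  `cr₂ G ≤ (3/8 - 1/(2^(d+2) + 25000 d³)) cr G`. It is enough that the edges which are crossed in
  some drawing of `G` with the least number of crossings have an end of degree at most `d`.
* `(B)` If `n'` vertices of `G` lie on edges that are crossed in some drawing of `G` with the least
  number of crossings, then `cr₂ G ≤ (3/8) cr G - n'/50000`.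

Crossing numbers are defined with drawings along a line (see `Spine.Defs`).

Proof: the random partition behind the bound `3/8` comes from a random colouring of the vertices
with two colours (the edges whose ends have different colours form the second graph). `(B)`: every
vertex is recoloured, to the better colour for its crossings, with a small probability that depends
on the number of its crossings; the expected gain at a vertex is the first absolute moment of a
cubic polynomial of random signs. `(A)`: an edge that has an end of degree one in its plane can be
redrawn without crossings. At a vertex of degree at most `d` this happens with probability at least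
`2^(-d-2)`, also given the other edge of a crossing, unless both ends of the other edge are
neighbours of the vertex. There are few such crossings, and they are taken care of by `(B)`.
-/

namespace Pool.Agent.Results.MP_c0cec8_co.OneEnd

open Pool.Agent.Work.MP_c0cec8_co.Spine

/-- The edge `e` is crossed by an edge in the drawing `D`. -/
def Crossed {V : Type*} {G : SimpleGraph V} (D : Drawing G) (e : Sym2 V) : Prop :=
  ∃ f ∈ G.edgeSet, cx (D.arcs e) (D.arcs f) ≠ 0

theorem result {V : Type*} [Finite V] (G : SimpleGraph V) :
    (∀ d : ℕ, (∀ u v, G.Adj u v → (G.neighborSet u).ncard ≤ d ∨ (G.neighborSet v).ncard ≤ d) →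
      (cr₂ G : ℝ) ≤ (3 / 8 - 1 / (2 ^ (d + 2) + 25000 * (d : ℝ) ^ 3)) * (cr G : ℝ)) ∧
    ∀ D : Drawing G, D.crossings = cr G →
      (∀ d : ℕ, (∀ e ∈ G.edgeSet, Crossed D e → ∃ v ∈ e, (G.neighborSet v).ncard ≤ d) →
        (cr₂ G : ℝ) ≤ (3 / 8 - 1 / (2 ^ (d + 2) + 25000 * (d : ℝ) ^ 3)) * (cr G : ℝ)) ∧
      (cr₂ G : ℝ) ≤ 3 / 8 * (cr G : ℝ) -
        ({v : V | ∃ e ∈ G.edgeSet, v ∈ e ∧ Crossed D e}.ncard : ℝ) / 50000 :=
  ⟨fun _ hd => gain_one_end' G hd, fun _ hD => ⟨fun _ hd => gain_one_end (min_of_crossings hD) hd,
    gain_vertex (min_of_crossings hD)⟩⟩

end Pool.Agent.Results.MP_c0cec8_co.OneEnd
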